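import Pool.Agent.T9h44.NK.SpecA

/-!
# Project NK: the metric lemmas KL and IMP (helper98's proofs)
-/

set_option autoImplicit false

open Set Finset
open scoped RealInnerProductSpace

namespace Pool.Agent.T9h47.NK

open Pool.Agent.T9h98.DC Pool.Agent.T9h44.NK

theorem kl (hF : S_FACES) (hC : S_CONE) {d : ℕ} {P : Set (E (d + 1))} (hP : IsPolytope P) {c : ℝ}
    (hc : c < 1) (hU : UV P) (hE : EC c P) (hPC : PC c P) :
    ∀ v w, Vx P v → Vx P w → v ≠ w → ¬ Adj P v w → ⟪v, w⟫ ≤ 2 * c - 1 := by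
  classical
  obtain ⟨-, -, hfin, -, -, -, -, -, hadj, -⟩ := hF (d + 1) P hP.1
  -- the finite set of the non-adjacent pairs
  set N : Finset (E (d + 1) × E (d + 1)) :=
    (hfin.toFinset ×ˢ hfin.toFinset).filter (fun p => p.1 ≠ p.2 ∧ ¬ Adj P p.1 p.2) with hN
  have hmem : ∀ u v, (u, v) ∈ N ↔ (Vx P u ∧ Vx P v) ∧ u ≠ v ∧ ¬ Adj P u v := by
    intro u v
    simp only [hN, Finset.mem_filter, Finset.mem_product, Set.Finite.mem_toFinset, mem_ofPred_eq]
  intro v0 w0 hv0 hw0 hne0 hna0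
  have hNne : N.Nonempty := ⟨(v0, w0), (hmem _ _).2 ⟨⟨hv0, hw0⟩, hne0, hna0⟩⟩
  obtain ⟨⟨u, v⟩, huv, hmax⟩ := N.exists_max_image (fun p => ⟪p.1, p.2⟫) hNne
  obtain ⟨⟨hu, hv⟩, hne, hna⟩ := (hmem _ _).1 huv
  have h0 : ⟪v0, w0⟫ ≤ ⟪u, v⟫ := hmax (v0, w0) ((hmem _ _).2 ⟨⟨hv0, hw0⟩, hne0, hna0⟩)
  refine h0.trans ?_
  set b : ℝ := ⟪u, v⟫ with hb
  have hbc : b ≤ c := hPC u v hu hv hne
  have hvv : ⟪v, v⟫ = 1 := by rw [real_inner_self_eq_norm_sq, hU v hv]; norm_num
  have huu : ⟪u, u⟫ = 1 := by rw [real_inner_self_eq_norm_sq, hU u hu]; norm_num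
  have hb1 : b < 1 := lt_of_le_of_lt hbc hc
  obtain ⟨S, l, hS, hsum⟩ := hC d P v hP hv u (by
    have : u ∈ ({u} : Set (E (d + 1))) := rfl
    exact (show IsFace P {u} from hu).2.subset this)
  -- inner product with v
  have e1 : b - 1 = ∑ y ∈ S, l y * (c - 1) := by
    have := congrArg (fun x => ⟪x, v⟫) hsum
    simp only [inner_sub_left, sum_inner, real_inner_smul_left] at this
    rw [hvv] at this
    rw [← hb] at this
    rw [this]
    refine Finset.sum_congr rfl fun y hy => ?_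
    rw [real_inner_comm, hE v y (hS y hy).1]
  have e2 : 1 - b = ∑ y ∈ S, l y * (⟪y, u⟫ - b) := by
    have := congrArg (fun x => ⟪x, u⟫) hsum
    simp only [inner_sub_left, sum_inner, real_inner_smul_left] at this
    rw [huu, real_inner_comm u v, ← hb] at this
    exact this
  have e3 : ∀ y ∈ S, ⟪y, u⟫ ≤ c := by
    intro y hy
    by_cases hyu : y = u
    · exact absurd ((hadj v y (hS y hy).1).2.2.1) (by rw [hyu]; exact hna)
    · exact hPC y u (hadj v y (hS y hy).1).2.1 hu hyu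
  have e4 : 1 - b ≤ ∑ y ∈ S, l y * (c - b) := by
    rw [e2]
    exact Finset.sum_le_sum fun y hy => mul_le_mul_of_nonneg_left (by linarith [e3 y hy]) (hS y hy).2
  rw [← Finset.sum_mul] at e1 e4
  set L := ∑ y ∈ S, l y with hL
  -- 1 - b = (1 - c) L
  have e5 : (1 - b) * (1 - c) ≤ (c - b) * (1 - b) := by
    have : (1 - c) * L = 1 - b := by linarith
    nlinarith [mul_le_mul_of_nonneg_right e4 (by linarith : (0:ℝ) ≤ 1 - c)]
  have e6 : (1 - c) ≤ c - b := by
    have h7 : (1 - b) * (1 - c) ≤ (1 - b) * (c - b) := by linarith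
    exact le_of_mul_le_mul_left h7 (by linarith)
  linarith

/-- a vertex has at most one non-neighbour -/
theorem one_non (hF : S_FACES) (hC : S_CONE) {d : ℕ} {P : Set (E (d + 1))} (hP : IsPolytope P) {c : ℝ}
    (hc : c < 1 / 8) (hU : UV P) (hE : EC c P) (hPC : PC c P) (v u u' : E (d + 1)) (hv : Vx P v)
    (hu : Vx P u) (hu' : Vx P u') (h1 : v ≠ u) (h2 : v ≠ u') (h3 : ¬ Adj P v u) (h4 : ¬ Adj P v u') :
    u = u' := by
  by_contra hne
  have a1 := kl hF hC hP (by linarith) hU hE hPC v u hv hu h1 h3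
  have a2 := kl hF hC hP (by linarith) hU hE hPC v u' hv hu' h2 h4
  have a3 := hPC u u' hu hu' hne
  have n1 : ⟪u, u⟫ = 1 := by rw [real_inner_self_eq_norm_sq, hU u hu]; norm_num
  have n2 : ⟪u', u'⟫ = 1 := by rw [real_inner_self_eq_norm_sq, hU u' hu']; norm_num
  have n3 := hU v hv
  have cs := real_inner_mul_inner_self_le v (u + u')
  have vv : ⟪v, v⟫ = 1 := by rw [real_inner_self_eq_norm_sq, n3]; norm_num
  rw [vv, one_mul, inner_add_right] at cs
  have e : ⟪u + u', u + u'⟫ = 2 + 2 * ⟪u, u'⟫ := by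
    rw [inner_add_left, inner_add_right, inner_add_right, n1, n2, real_inner_comm u u']; ring
  rw [e] at cs
  set x := ⟪v, u⟫
  set y := ⟪v, u'⟫
  set z := ⟪u, u'⟫
  have hxy : x + y ≤ 2 * (2 * c - 1) := by linarith
  have h5 : (2 * (1 - 2 * c)) ^ 2 ≤ (x + y) ^ 2 := by
    have : 2 * (1 - 2 * c) ≤ -(x + y) := by linarith
    have h0 : 0 ≤ 2 * (1 - 2 * c) := by linarith
    nlinarith
  nlinarith

theorem imp (hF : S_FACES) (hC : S_CONE) {d : ℕ} (hd : 1 ≤ d) {P : Set (E (d + 1))}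
    (hP : IsPolytope P) {c : ℝ} (hc0 : 0 < c)
    (hc : c < 1 / 8) (hU : UV P) (hE : EC c P) (hPC : PC c P) (S : Finset (E (d + 1)))
    (hS : ∀ v, v ∈ S ↔ Vx P v) (hsum : ∑ v ∈ S, v = 0) : False := by
  classical
  obtain ⟨hhull, -, hfin, -, hne, -⟩ := hF (d + 1) P hP.1
  have hPne : P.Nonempty := by
    obtain ⟨x, hx⟩ := hP.2
    exact ⟨x, interior_subset hx⟩
  obtain ⟨hPP, v, hv⟩ := hne hPne
  -- at least three vertices
  have hPS : P = convexHull ℝ (S : Set (E (d + 1))) := by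
    have := (hhull P hPP).2
    refine this.trans (congrArg _ ?_)
    ext x
    simp only [mem_ofPred_eq, Finset.mem_coe, hS]
    exact ⟨fun h => h.1, fun h => ⟨h, (show IsFace P {x} from h).2.subset rfl⟩⟩
  have hvS : v ∈ S := (hS v).2 hv
  have hcard : 3 ≤ S.card := by
    by_contra hlt
    have htop : affineSpan ℝ (S : Set (E (d + 1))) = ⊤ := by
      rw [← interior_convexHull_nonempty_iff_affineSpan_eq_top, ← hPS]
      exact hP.2
    have hpos : 0 < S.card := Finset.card_pos.2 ⟨v, hvS⟩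
    have hv1 : vectorSpan ℝ (S : Set (E (d + 1))) = ⊤ := by
      rw [← direction_affineSpan, htop, AffineSubspace.direction_top]
    have hle := finrank_vectorSpan_image_finset_le ℝ (id : E (d + 1) → E (d + 1)) S
      (n := S.card - 1) (by omega)
    rw [Finset.image_id, hv1, finrank_top, finrank_euclideanSpace_fin] at hle
    omega
  -- the inner product with the sum
  have vv : ⟪v, v⟫ = 1 := by rw [real_inner_self_eq_norm_sq, hU v hv]; norm_num
  have e0 : ∑ u ∈ S, ⟪v, u⟫ = 0 := by rw [← inner_sum, hsum, inner_zero_right]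
  by_cases hall : ∀ u ∈ S, u ≠ v → Adj P v u
  · rw [← Finset.add_sum_erase S _ hvS, vv] at e0
    have : 0 ≤ ∑ u ∈ S.erase v, ⟪v, u⟫ := by
      refine Finset.sum_nonneg fun u hu => ?_
      rw [hE v u (hall u (Finset.mem_of_mem_erase hu) (Finset.ne_of_mem_erase hu))]
      exact hc0.le
    linarith
  · push Not at hall
    obtain ⟨w, hw, hwv, hna⟩ := hall
    have hw' := (hS w).1 hw
    have hwE : w ∈ S.erase v := Finset.mem_erase.2 ⟨hwv, hw⟩
    rw [← Finset.add_sum_erase S _ hvS, vv, ← Finset.add_sum_erase _ _ hwE] at e0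
    have h1 : -1 ≤ ⟪v, w⟫ := by
      have := abs_real_inner_le_norm v w
      rw [hU v hv, hU w hw', mul_one] at this
      exact (abs_le.1 this).1
    have h2 : ∑ u ∈ (S.erase v).erase w, ⟪v, u⟫ = ((S.erase v).erase w).card * c := by
      rw [← nsmul_eq_mul, ← Finset.sum_const]
      refine Finset.sum_congr rfl fun u hu => ?_
      have hu1 := Finset.ne_of_mem_erase hu
      have hu2 := Finset.mem_of_mem_erase hu
      have hu3 := Finset.ne_of_mem_erase hu2
      have hu4 := (hS u).1 (Finset.mem_of_mem_erase hu2)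
      by_cases ha : Adj P v u
      · exact hE v u ha
      · exact absurd (one_non hF hC hP hc hU hE hPC v u w hv hu4 hw' hu3.symm hwv.symm ha hna) hu1
    have h3 : 1 ≤ ((S.erase v).erase w).card := by
      rw [Finset.card_erase_of_mem hwE, Finset.card_erase_of_mem hvS]
      omega
    have h4 : (1 : ℝ) ≤ ((S.erase v).erase w).card := by exact_mod_cast h3
    have h5 : c ≤ ((S.erase v).erase w).card * c := by nlinarith
    rw [h2] at e0
    linarith

end Pool.Agent.T9h47.NK
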