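import Pool.Agent.T9h44.NK.SpecA

/-!
# Project NK: the vertices of a vertex-transitive polytope sum to zero; products in the figure
-/

set_option autoImplicit false

open Set Finset
open scoped RealInnerProductSpace

namespace Pool.Agent.T9h47.NK

open Pool.Agent.T9h98.DC Pool.Agent.T9h44.NK

/-- a linear isometry preserving `P` preserves its vertices -/
theorem vx_image {d : ℕ} {P : Set (E d)} (h : E d ≃ₗᵢ[ℝ] E d) (hP : h '' P = P) {v : E d}
    (hv : Vx P v) : Vx P (h v) := by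
  obtain ⟨-, hx⟩ := hv
  have hvP : v ∈ P := hx.subset rfl
  refine ⟨⟨h v, rfl⟩, ?_⟩
  intro _
  obtain ⟨l, hl⟩ := hx ⟨v, rfl⟩
  refine ⟨l.comp (h.symm.toContinuousLinearEquiv : E d →L[ℝ] E d), ?_⟩
  ext y
  simp only [mem_singleton_iff, mem_ofPred_eq, ContinuousLinearMap.comp_apply]
  constructor
  · rintro rfl
    refine ⟨by rw [← hP]; exact mem_image_of_mem _ hvP, fun z hz => ?_⟩
    rw [← hP] at hz
    obtain ⟨z', hz', rfl⟩ := hz
    have hh : v ∈ {x | x ∈ P ∧ ∀ y ∈ P, l y ≤ l x} := by rw [← hl]; rfl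
    have := hh.2 z' hz'
    simpa using this
  · rintro ⟨hy, hm⟩
    rw [← hP] at hy
    obtain ⟨y', hy', rfl⟩ := hy
    have : y' ∈ ({v} : Set (E d)) := by
      rw [hl]
      refine ⟨hy', fun z hz => ?_⟩
      have := hm (h z) (by rw [← hP]; exact mem_image_of_mem _ hz)
      simpa using this
    rw [mem_singleton_iff.1 this]

/-- the sum of the vertices is zero if a linear group preserving `P` is transitive on them -/
theorem sum_zero {d : ℕ} {P : Set (E d)} (hP : IsPolytope P)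
    (H : Subgroup (E d ≃ₗᵢ[ℝ] E d)) (hH : Pres H P)
    (ht : ∀ v w, Vx P v → Vx P w → ∃ h ∈ H, h v = w) (S : Finset (E d))
    (hS : ∀ v, v ∈ S ↔ Vx P v) (hhull : P = convexHull ℝ (S : Set (E d))) : ∑ v ∈ S, v = 0 := by
  classical
  set g := ∑ v ∈ S, v with hg
  have hfix : ∀ h ∈ H, h g = g := by
    intro h hh
    rw [hg, map_sum]
    refine Finset.sum_bij (fun v _ => h v) (fun v hv => (hS _).2 (vx_image h (hH h hh) ((hS v).1 hv)))
      (fun a _ b _ hab => h.injective hab) (fun b hb => ?_) (fun _ _ => rfl)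
    refine ⟨h⁻¹ b, (hS _).2 (vx_image h⁻¹ (hH _ (H.inv_mem hh)) ((hS b).1 hb)), ?_⟩
    exact h.apply_symm_apply b
  have hne : S.Nonempty := by
    rw [Finset.nonempty_iff_ne_empty]
    rintro rfl
    obtain ⟨x, hx⟩ := hP.2
    have := interior_subset hx
    rw [hhull] at this
    simp at this
  obtain ⟨v, hv⟩ := hne
  have hc : ∀ w ∈ S, ⟪w, g⟫ = ⟪v, g⟫ := by
    intro w hw
    obtain ⟨h, hh, rfl⟩ := ht v w ((hS v).1 hv) ((hS w).1 hw)
    conv_lhs => rw [← hfix h hh]
    exact h.inner_map_map v g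
  have hP' : ∀ x ∈ P, ⟪x, g⟫ = ⟪v, g⟫ := by
    intro x hx
    have hcv : Convex ℝ {x : E d | ⟪x, g⟫ = ⟪v, g⟫} := by
      intro a ha b hb s t _ _ hst
      simp only [mem_ofPred_eq] at ha hb ⊢
      rw [inner_add_left, real_inner_smul_left, real_inner_smul_left, ha, hb, ← add_mul, hst, one_mul]
    rw [hhull] at hx
    exact (convexHull_min (fun w hw => hc w hw) hcv) hx
  obtain ⟨x, hx⟩ := hP.2
  have h1 := hP' x (interior_subset hx)
  by_contra hg0
  obtain ⟨ε, hε, hball⟩ := Metric.mem_nhds_iff.1 (mem_interior_iff_mem_nhds.1 hx)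
  have hgn : 0 < ‖g‖ := norm_pos_iff.2 hg0
  have h2 := hP' (x + (ε / (2 * ‖g‖)) • g) (hball (by
    rw [Metric.mem_ball, dist_eq_norm, add_sub_cancel_left, norm_smul, Real.norm_eq_abs,
      abs_of_pos (by positivity)]
    have : ε / (2 * ‖g‖) * ‖g‖ = ε / 2 := by field_simp
    rw [this]; linarith))
  rw [inner_add_left, real_inner_smul_left, h1, real_inner_self_eq_norm_sq] at h2
  have : 0 < ε / (2 * ‖g‖) * ‖g‖ ^ 2 := by positivity
  linarith

/-- the products in the figure, for non-adjacent neighbours -/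
theorem prod_fig {c x : ℝ} (h0 : 0 < c) (h1 : c < 1) (hx : x ≤ 2 * c - 1) :
    (x - c ^ 2) / (1 - c ^ 2) ≤ -((1 - c) / (1 + c)) := by
  have h2 : 0 < 1 - c ^ 2 := by nlinarith
  have h3 : 0 < 1 + c := by linarith
  rw [div_le_iff₀ h2]
  have : -((1 - c) / (1 + c)) * (1 - c ^ 2) = -(1 - c) ^ 2 := by field_simp; ring
  rw [this]
  nlinarith

end Pool.Agent.T9h47.NK
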