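import Pool.Agent.T9h44.NK.SpecB2
import Pool.Agent.T9h47.NK.Zero

set_option autoImplicit false

open Set

namespace Pool.Agent.T9h47.NK

open Pool.Agent.T9h98.DC Pool.Agent.T9h44.NK

theorem sum0 (hF : S_FACES) : S_SUM0 := by
  intro d P H S hP hH ht hS
  obtain ⟨hhull, -, -, -, hne, -⟩ := hF d P hP.1
  have hPne : P.Nonempty := by
    obtain ⟨x, hx⟩ := hP.2
    exact ⟨x, interior_subset hx⟩
  have hPS : P = convexHull ℝ (S : Set (E d)) := by
    refine (hhull P (hne hPne).1).2.trans (congrArg _ ?_)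
    ext x
    simp only [mem_ofPred_eq, Finset.mem_coe, hS]
    exact ⟨fun h => h.1, fun h => ⟨h, (show IsFace P {x} from h).2.subset rfl⟩⟩
  exact sum_zero hP H hH ht S hS hPS

end Pool.Agent.T9h47.NK
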