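import Pool.Agent.T9h44.NK.SpecC

/-!
# Project NK, (FTC): the cube is flag-transitive
-/

set_option autoImplicit false

open Set Finset
open scoped RealInnerProductSpace

namespace Pool.Agent.T9h47.NK

open Pool.Agent.T9h98.DC Pool.Agent.T9h44.NK

variable {d : ℕ}

/-- a face of the cube -/
def cf (c : E d) (r : ℝ) (b : OrthonormalBasis (Fin d) ℝ (E d)) (J : Finset (Fin d)) (ε : Fin d → ℝ) :
    Set (E d) :=
  {x | (∀ i, |⟪x - c, b i⟫| ≤ r) ∧ ∀ j ∈ J, ⟪x - c, b j⟫ = ε j * r}

/-- its centre -/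
noncomputable def ctr (c : E d) (r : ℝ) (b : OrthonormalBasis (Fin d) ℝ (E d)) (J : Finset (Fin d))
    (ε : Fin d → ℝ) : E d := c + ∑ j ∈ J, (ε j * r) • b j

theorem ctr_inner (c : E d) (r : ℝ) (b : OrthonormalBasis (Fin d) ℝ (E d)) (J : Finset (Fin d))
    (ε : Fin d → ℝ) (i : Fin d) :
    ⟪ctr c r b J ε - c, b i⟫ = if i ∈ J then ε i * r else 0 := by
  rw [ctr, add_sub_cancel_left, sum_inner]
  simp only [real_inner_smul_left]
  have : ∀ j, ⟪b j, b i⟫ = if j = i then (1 : ℝ) else 0 := fun j =>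
    orthonormal_iff_ite.1 b.orthonormal j i
  simp only [this, mul_ite, mul_one, mul_zero]
  rw [Finset.sum_ite_eq']

theorem ctr_mem {c : E d} {r : ℝ} (hr : 0 < r) {b : OrthonormalBasis (Fin d) ℝ (E d)}
    {J : Finset (Fin d)} {ε : Fin d → ℝ} (hε : ∀ i, ε i = 1 ∨ ε i = -1) :
    ctr c r b J ε ∈ cf c r b J ε := by
  refine ⟨fun i => ?_, fun j hj => by rw [ctr_inner, if_pos hj]⟩
  rw [ctr_inner]
  split_ifs
  · rcases hε i with h | h <;> rw [h] <;> simp [abs_of_pos hr]
  · simpa using hr.le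

/-- faces of the cube -/
theorem face_cube {c : E d} {r : ℝ} (hr : 0 < r) {b : OrthonormalBasis (Fin d) ℝ (E d)} {F : Set (E d)}
    (hF : IsFace {x : E d | ∀ i, |⟪x - c, b i⟫| ≤ r} F) :
    ∃ (J : Finset (Fin d)) (ε : Fin d → ℝ), (∀ i, ε i = 1 ∨ ε i = -1) ∧ F = cf c r b J ε := by
  classical
  obtain ⟨hne, hex⟩ := hF
  obtain ⟨l, hl⟩ := hex hne
  set a : Fin d → ℝ := fun j => l (b j) with ha
  set ε : Fin d → ℝ := fun j => if 0 ≤ a j then 1 else -1 with hε
  have hεε : ∀ i, ε i = 1 ∨ ε i = -1 := by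
    intro i
    by_cases h : 0 ≤ a i
    · left; simp [hε, h]
    · right; simp [hε, h]
  have haε : ∀ i, a i * ε i = |a i| := by
    intro i
    by_cases h : 0 ≤ a i
    · simp [hε, h, abs_of_nonneg h]
    · have h' := not_le.1 h
      simp [hε, h, abs_of_neg h']
  have hlx : ∀ x, l x = l c + ∑ j, ⟪x - c, b j⟫ * a j := by
    intro x
    have h1 : x - c = ∑ j, ⟪b j, x - c⟫ • b j := (b.sum_repr' (x - c)).symm
    have h2 : l (x - c) = ∑ j, ⟪x - c, b j⟫ * a j := by
      conv_lhs => rw [h1]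
      rw [map_sum]
      refine Finset.sum_congr rfl fun j _ => ?_
      rw [map_smul, smul_eq_mul, real_inner_comm]
    rw [← h2, map_sub]; ring
  have hle : ∀ x, (∀ i, |⟪x - c, b i⟫| ≤ r) → ∀ j, ⟪x - c, b j⟫ * a j ≤ r * |a j| := by
    intro x hx j
    calc ⟪x - c, b j⟫ * a j ≤ |⟪x - c, b j⟫ * a j| := le_abs_self _
      _ = |⟪x - c, b j⟫| * |a j| := abs_mul _ _
      _ ≤ r * |a j| := mul_le_mul_of_nonneg_right (hx j) (abs_nonneg _)
  refine ⟨Finset.univ.filter (fun j => a j ≠ 0), ε, hεε, ?_⟩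
  rw [hl]
  ext x
  simp only [mem_ofPred_eq, cf, Finset.mem_filter, Finset.mem_univ, true_and]
  constructor
  · rintro ⟨hx, hmax⟩
    refine ⟨hx, fun j hj => ?_⟩
    have h1 := hmax (ctr c r b Finset.univ ε) (ctr_mem hr hεε).1
    rw [hlx, hlx x] at h1
    have h2 : ∑ j, ⟪ctr c r b Finset.univ ε - c, b j⟫ * a j = ∑ j, r * |a j| := by
      refine Finset.sum_congr rfl fun j _ => ?_
      rw [ctr_inner, if_pos (Finset.mem_univ _), ← haε]; ring
    rw [h2] at h1
    have h3 : ∑ j, (r * |a j| - ⟪x - c, b j⟫ * a j) = 0 := by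
      apply le_antisymm
      · rw [Finset.sum_sub_distrib]; linarith
      · exact Finset.sum_nonneg fun j _ => by linarith [hle x hx j]
    have h4 := (Finset.sum_eq_zero_iff_of_nonneg (fun j _ => by linarith [hle x hx j])).1 h3 j
      (Finset.mem_univ _)
    have h5 : a j * (ε j * r - ⟪x - c, b j⟫) = 0 := by
      rw [← haε] at h4; linarith
    rcases mul_eq_zero.1 h5 with h | h
    · exact absurd h hj
    · linarith
  · rintro ⟨hx, hj⟩
    refine ⟨hx, fun y hy => ?_⟩
    rw [hlx, hlx x]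
    refine add_le_add le_rfl (Finset.sum_le_sum fun j _ => (hle y hy j).trans (le_of_eq ?_))
    by_cases h : a j = 0
    · simp [h]
    · rw [hj j h, ← haε]; ring

theorem cf_sub {c : E d} {r : ℝ} (hr : 0 < r) {b : OrthonormalBasis (Fin d) ℝ (E d)}
    {J J' : Finset (Fin d)} {ε ε' : Fin d → ℝ} (hε : ∀ i, ε i = 1 ∨ ε i = -1)
    (hε' : ∀ i, ε' i = 1 ∨ ε' i = -1) (h : cf c r b J ε ⊆ cf c r b J' ε') :
    J' ⊆ J ∧ ∀ j ∈ J', ε j = ε' j := by
  have key : ∀ j ∈ J', j ∈ J ∧ ε j = ε' j := by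
    intro j hj
    have h1 := (h (ctr_mem hr hε)).2 j hj
    rw [ctr_inner] at h1
    by_cases hJ : j ∈ J
    · rw [if_pos hJ] at h1
      exact ⟨hJ, mul_right_cancel₀ hr.ne' h1⟩
    · rw [if_neg hJ] at h1
      rcases hε' j with h2 | h2 <;> rw [h2] at h1 <;> linarith
  exact ⟨fun j hj => (key j hj).1, fun j hj => (key j hj).2⟩

theorem dm_cf {c : E d} {r : ℝ} (hr : 0 < r) {b : OrthonormalBasis (Fin d) ℝ (E d)}
    {J : Finset (Fin d)} {ε : Fin d → ℝ} (hε : ∀ i, ε i = 1 ∨ ε i = -1) :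
    dm (cf c r b J ε) = d - J.card := by
  classical
  set K : Submodule ℝ (E d) := Submodule.span ℝ ((J.image b : Finset (E d)) : Set (E d)) with hK
  have hKmem : ∀ v, v ∈ Kᗮ ↔ ∀ j ∈ J, ⟪v, b j⟫ = 0 := by
    intro v
    rw [hK, Submodule.mem_orthogonal']
    constructor
    · intro h j hj
      exact h _ (Submodule.subset_span (by simpa using ⟨j, hj, rfl⟩))
    · intro h u hu
      refine Submodule.span_induction (p := fun u _ => ⟪v, u⟫ = 0) ?_ (inner_zero_right _) ?_ ?_ hu
      · intro x hx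
        simp only [Finset.coe_image, Set.mem_image, Finset.mem_coe] at hx
        obtain ⟨j, hj, rfl⟩ := hx
        exact h j hj
      · intro x y _ _ hx hy
        rw [inner_add_right, hx, hy, add_zero]
      · intro a x _ hx
        rw [real_inner_smul_right, hx, mul_zero]
  have hspan : vectorSpan ℝ (cf c r b J ε) = Kᗮ := by
    apply le_antisymm
    · rw [vectorSpan_def, Submodule.span_le]
      rintro _ ⟨x, hx, y, hy, rfl⟩
      rw [SetLike.mem_coe, hKmem]
      intro j hj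
      have : (x - y : E d) = (x - c) - (y - c) := by abel
      change ⟪(x - y : E d), b j⟫ = 0
      rw [this, inner_sub_left, hx.2 j hj, hy.2 j hj, sub_self]
    · intro v hv
      rw [hKmem] at hv
      -- a small multiple
      set M : ℝ := r / (‖v‖ + 1) with hM
      have hM0 : 0 < M := by positivity
      have hm : ctr c r b J ε + M • v ∈ cf c r b J ε := by
        have e : ∀ i, ⟪ctr c r b J ε + M • v - c, b i⟫ = (if i ∈ J then ε i * r else 0) + M * ⟪v, b i⟫ := by
          intro i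
          rw [← ctr_inner c r b J ε i, ← real_inner_smul_left, ← inner_add_left]
          congr 1; abel
        refine ⟨fun i => ?_, fun j hj => by rw [e, if_pos hj, hv j hj, mul_zero, add_zero]⟩
        rw [e]
        by_cases hi : i ∈ J
        · rw [if_pos hi, hv i hi, mul_zero, add_zero]
          rcases hε i with h | h <;> rw [h] <;> simp [abs_of_pos hr]
        · rw [if_neg hi, zero_add, abs_mul, abs_of_pos hM0]
          have h1 : |⟪v, b i⟫| ≤ ‖v‖ := by
            have := abs_real_inner_le_norm v (b i)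
            rwa [b.orthonormal.1 i, mul_one] at this
          calc M * |⟪v, b i⟫| ≤ M * (‖v‖ + 1) := mul_le_mul_of_nonneg_left (by linarith) hM0.le
            _ = r := by rw [hM]; field_simp
      have h2 : M • v ∈ vectorSpan ℝ (cf c r b J ε) := by
        have := vsub_mem_vectorSpan ℝ hm (ctr_mem hr hε)
        rwa [vsub_eq_sub, add_sub_cancel_left] at this
      have h3 := Submodule.smul_mem _ M⁻¹ h2
      rwa [smul_smul, inv_mul_cancel₀ hM0.ne', one_smul] at h3
  have hfin : Module.finrank ℝ K = J.card := by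
    have hli : LinearIndependent ℝ (fun x : (J.image b : Finset (E d)) => (x : E d)) := by
      have h1 : LinearIndependent ℝ (b : Fin d → E d) := b.orthonormal.linearIndependent
      have h2 := h1.linearIndepOn_id
      refine LinearIndepOn.linearIndependent (h2.mono ?_)
      intro x hx
      simp only [Finset.coe_image, Set.mem_image, Finset.mem_coe] at hx
      obtain ⟨j, _, rfl⟩ := hx
      exact ⟨j, rfl⟩
    rw [hK, finrank_span_finset_eq_card hli, Finset.card_image_of_injective]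
    exact b.orthonormal.linearIndependent.injective
  have hadd := K.finrank_add_finrank_orthogonal
  rw [finrank_euclideanSpace_fin] at hadd
  show Module.finrank ℝ (vectorSpan ℝ (cf c r b J ε)) = d - J.card
  rw [hspan]
  omega

/-- signed permutation of an orthonormal basis -/
theorem signed (b : OrthonormalBasis (Fin d) ℝ (E d)) (τ : Equiv.Perm (Fin d)) (σ : Fin d → ℝ)
    (hσ : ∀ i, σ i = 1 ∨ σ i = -1) :
    ∃ A : E d ≃ₗᵢ[ℝ] E d, ∀ x j, ⟪A x, b (τ j)⟫ = σ j * ⟪x, b j⟫ := by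
  have hσσ : ∀ i, σ i * σ i = 1 := fun i => by rcases hσ i with h | h <;> rw [h] <;> norm_num
  set f : E d →ₗ[ℝ] E d := b.toBasis.constr ℝ (fun j => σ j • b (τ j)) with hf
  have hfb : ∀ j, f (b j) = σ j • b (τ j) := by
    intro j
    have := b.toBasis.constr_basis ℝ (fun j => σ j • b (τ j)) j
    rwa [OrthonormalBasis.coe_toBasis] at this
  have ho : Orthonormal ℝ (f ∘ b.toBasis) := by
    rw [orthonormal_iff_ite]
    intro i j
    simp only [Function.comp_apply, OrthonormalBasis.coe_toBasis, hfb, real_inner_smul_left,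
      real_inner_smul_right]
    rw [orthonormal_iff_ite.1 b.orthonormal (τ i) (τ j)]
    by_cases h : i = j
    · subst h; simp [hσσ]
    · rw [if_neg h, if_neg (fun h' => h (τ.injective h'))]; simp
  have hb : Orthonormal ℝ b.toBasis := by
    rw [OrthonormalBasis.coe_toBasis]; exact b.orthonormal
  set L : E d →ₗᵢ[ℝ] E d := f.isometryOfOrthonormal hb ho with hL
  have hLf : ∀ x, L x = f x := fun x => by rw [hL, LinearMap.coe_isometryOfOrthonormal]
  refine ⟨L.toLinearIsometryEquiv rfl, fun x j => ?_⟩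
  rw [LinearIsometry.coe_toLinearIsometryEquiv]
  have h1 : ⟪L x, L (b j)⟫ = ⟪x, b j⟫ := L.inner_map_map x (b j)
  rw [hLf (b j), hfb, real_inner_smul_right] at h1
  rw [← h1, ← mul_assoc, hσσ, one_mul]

theorem ftc (hperm : S_PERMC) : S_FTC := by
  classical
  rintro d P ⟨c, r, b, hr, rfl⟩
  intro Φ Ψ
  have hΦ := fun i => face_cube hr (Φ.isFace i)
  have hΨ := fun i => face_cube hr (Ψ.isFace i)
  choose J ε hε hJ using hΦ
  choose J' ε' hε' hJ' using hΨ
  have cardJ : ∀ i, (J i).card = d - i := by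
    intro i
    have h1 := Φ.dim i
    have h2 := dm_cf (c := c) hr (b := b) (J := J i) (hε i)
    rw [← hJ i] at h2
    have h3 : (J i).card ≤ d := by simpa using Finset.card_le_univ (J i)
    have h4 := h2.symm.trans h1
    omega
  have cardJ' : ∀ i, (J' i).card = d - i := by
    intro i
    have h1 := Ψ.dim i
    have h2 := dm_cf (c := c) hr (b := b) (J := J' i) (hε' i)
    rw [← hJ' i] at h2
    have h3 : (J' i).card ≤ d := by simpa using Finset.card_le_univ (J' i)
    have h4 := h2.symm.trans h1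
    omega
  have mJ : ∀ i j, i ≤ j → J j ⊆ J i ∧ ∀ l ∈ J j, ε i l = ε j l := by
    intro i j hij
    have := Φ.mono hij
    rw [hJ i, hJ j] at this
    exact cf_sub hr (hε i) (hε j) this
  have mJ' : ∀ i j, i ≤ j → J' j ⊆ J' i ∧ ∀ l ∈ J' j, ε' i l = ε' j l := by
    intro i j hij
    have := Ψ.mono hij
    rw [hJ' i, hJ' j] at this
    exact cf_sub hr (hε' i) (hε' j) this
  obtain ⟨τ, hτ⟩ := hperm d d J J' le_rfl (fun i j hij => (mJ i j hij).1)
    (fun i j hij => (mJ' i j hij).1) cardJ cardJ'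
  -- the common sign functions
  obtain ⟨η, hη, hηJ⟩ : ∃ η : Fin d → ℝ, (∀ l, η l = 1 ∨ η l = -1) ∧ ∀ i, ∀ l ∈ J i, ε i l = η l := by
    rcases Nat.eq_zero_or_pos d with h0 | h0
    · subst h0
      exact ⟨fun _ => 1, fun _ => Or.inl rfl, fun i => i.elim0⟩
    · exact ⟨ε ⟨0, h0⟩, hε _, fun i l hl => ((mJ ⟨0, h0⟩ i (Fin.mk_le_of_le_val (Nat.zero_le _))).2 l hl).symm⟩
  obtain ⟨η', hη', hηJ'⟩ : ∃ η : Fin d → ℝ, (∀ l, η l = 1 ∨ η l = -1) ∧ ∀ i, ∀ l ∈ J' i, ε' i l = η l := by
    rcases Nat.eq_zero_or_pos d with h0 | h0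
    · subst h0
      exact ⟨fun _ => 1, fun _ => Or.inl rfl, fun i => i.elim0⟩
    · exact ⟨ε' ⟨0, h0⟩, hε' _, fun i l hl => ((mJ' ⟨0, h0⟩ i (Fin.mk_le_of_le_val (Nat.zero_le _))).2 l hl).symm⟩
  obtain ⟨A, hA⟩ := signed b τ (fun j => η j * η' (τ j)) (fun j => by
    rcases hη j with h | h <;> rcases hη' (τ j) with h' | h' <;> rw [h, h'] <;> norm_num)
  set g : E d ≃ᵢ E d := ((IsometryEquiv.subRight c).trans A.toIsometryEquiv).trans
    (IsometryEquiv.addRight c) with hg
  have hgx : ∀ x, g x - c = A (x - c) := by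
    intro x
    simp [hg]
  have habs : ∀ x j, |⟪g x - c, b (τ j)⟫| = |⟪x - c, b j⟫| := by
    intro x j
    rw [hgx, hA, abs_mul]
    have : |η j * η' (τ j)| = 1 := by
      rcases hη j with h | h <;> rcases hη' (τ j) with h' | h' <;> rw [h, h'] <;> norm_num
    rw [this, one_mul]
  have hmemP : ∀ x, (∀ i, |⟪g x - c, b i⟫| ≤ r) ↔ ∀ i, |⟪x - c, b i⟫| ≤ r := by
    intro x
    constructor
    · intro h i
      rw [← habs]; exact h _
    · intro h i
      have := habs x (τ.symm i)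
      rw [τ.apply_symm_apply] at this
      rw [this]; exact h _
  have img : ∀ S T : Set (E d), (∀ x, g x ∈ T ↔ x ∈ S) → g '' S = T := by
    intro S T h
    ext y
    constructor
    · rintro ⟨x, hx, rfl⟩
      exact (h x).2 hx
    · intro hy
      obtain ⟨x, rfl⟩ := g.surjective y
      exact ⟨x, (h x).1 hy, rfl⟩
  refine ⟨g, img _ _ hmemP, fun i => img _ _ fun x => ?_⟩
  rw [hJ i, hJ' i]
  constructor
  · rintro ⟨h1, h2⟩
    refine ⟨(hmemP x).1 h1, fun j hj => ?_⟩
    have hj' : τ j ∈ J' i := by rw [← hτ i]; exact Finset.mem_image_of_mem _ hj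
    have h3 := h2 (τ j) hj'
    rw [hgx, hA, hηJ' i _ hj'] at h3
    rw [hηJ i j hj]
    rcases hη j with h | h <;> rcases hη' (τ j) with h' | h' <;> rw [h, h'] at h3 <;> rw [h] <;>
      linarith
  · rintro ⟨h1, h2⟩
    refine ⟨(hmemP x).2 h1, fun j' hj' => ?_⟩
    have hj'' := hj'
    rw [← hτ i] at hj''
    obtain ⟨j, hj, rfl⟩ := Finset.mem_image.1 hj''
    have h3 := h2 j hj
    rw [hgx, hA, hηJ' i _ hj', h3, hηJ i j hj]
    rcases hη j with h | h <;> rcases hη' (τ j) with h' | h' <;> rw [h, h'] <;> ring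

end Pool.Agent.T9h47.NK
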