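import Mathlib

/-!
# Systems of unit vectors with products `c` or `≤ 2 c - 1`, `c < 1 / 4`
-/

set_option autoImplicit false

open Finset
open scoped RealInnerProductSpace

namespace Pool.Agent.T9h47.NK

variable {V : Type*} [NormedAddCommGroup V] [InnerProductSpace ℝ V]

theorem sum_sq_le (A : Finset V) (c : ℝ) (hu : ∀ x ∈ A, ‖x‖ = 1)
    (hle : ∀ x ∈ A, ∀ y ∈ A, x ≠ y → ⟪x, y⟫ ≤ c) :
    ⟪∑ x ∈ A, x, ∑ x ∈ A, x⟫ ≤ (A.card : ℝ) + A.card * ((A.card : ℝ) - 1) * c := by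
  classical
  rw [sum_inner]
  have h1 : ∀ x ∈ A, ⟪x, ∑ y ∈ A, y⟫ ≤ 1 + ((A.card : ℝ) - 1) * c := by
    intro x hx
    rw [inner_sum, ← Finset.add_sum_erase A _ hx, real_inner_self_eq_norm_sq, hu x hx]
    have h2 : ∑ y ∈ A.erase x, ⟪x, y⟫ ≤ ∑ _y ∈ A.erase x, c :=
      Finset.sum_le_sum fun y hy =>
        hle x hx y (Finset.mem_of_mem_erase hy) (Finset.ne_of_mem_erase hy).symm
    rw [Finset.sum_const, Finset.card_erase_of_mem hx, nsmul_eq_mul] at h2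
    have h3 : 1 ≤ A.card := Finset.card_pos.2 ⟨x, hx⟩
    rw [Nat.cast_sub h3, Nat.cast_one] at h2
    linarith
  refine (Finset.sum_le_sum h1).trans (le_of_eq ?_)
  rw [Finset.sum_const, nsmul_eq_mul]
  ring

/-- the numbers -/
theorem numb (M D c : ℝ) (hM : 0 ≤ M) (hD : 0 ≤ D) (h0 : 0 < c) (h4 : c < 1 / 4)
    (i1 : M * (1 - 2 * c) ≤ 1 + D * c) (i2 : (1 + D * c) ^ 2 ≤ M + M * (M - 1) * c) :
    M * (1 - 4 * c) ≤ 1 ∧ D < 2 * M + 1 := by
  have hM0 : 0 < M := by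
    rcases hM.eq_or_lt with h | h
    · exfalso
      rw [← h] at i2
      have : 0 ≤ D * c := by positivity
      nlinarith
    · exact h
  have a1 : M * (1 - 4 * c) ≤ 1 := by
    have b1 : (M * (1 - 2 * c)) ^ 2 ≤ (1 + D * c) ^ 2 := by
      have : 0 ≤ M * (1 - 2 * c) := mul_nonneg hM (by linarith)
      nlinarith
    have b2 : M * ((1 - c) * (M * (1 - 4 * c))) ≤ M * ((1 - c) * 1) := by nlinarith
    have b3 := le_of_mul_le_mul_left b2 hM0
    exact le_of_mul_le_mul_left b3 (by linarith)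
  refine ⟨a1, ?_⟩
  by_contra hcon
  push Not at hcon
  have b1 : (1 + (2 * M + 1) * c) ^ 2 ≤ (1 + D * c) ^ 2 := by
    have : (2 * M + 1) * c ≤ D * c := mul_le_mul_of_nonneg_right hcon h0.le
    have h5 : 0 ≤ (2 * M + 1) * c := by positivity
    nlinarith
  have b2 : M * c * (M - 1) ≤ M * c * (4 * M * c) :=
    mul_le_mul_of_nonneg_left (by linarith) (by positivity)
  nlinarith [mul_pos hM0 h0, mul_pos h0 h0]

theorem sys (X : Finset V) (c : ℝ) (h0 : 0 < c) (h4 : c < 1 / 4)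
    (hu : ∀ x ∈ X, ‖x‖ = 1) (hc : ∀ x ∈ X, ∀ y ∈ X, x ≠ y → ⟪x, y⟫ = c ∨ ⟪x, y⟫ ≤ 2 * c - 1)
    (hs : ∑ x ∈ X, x = 0) (m : ℕ)
    (hm : ∀ x ∈ X, ∃ U : Finset V, U.card = m ∧ ∀ y, y ∈ U ↔ (y ∈ X ∧ y ≠ x ∧ ⟪x, y⟫ ≠ c)) :
    X.card ≤ 28 := by
  classical
  rcases X.eq_empty_or_nonempty with rfl | ⟨x, hx⟩
  · simp
  have hle : ∀ x ∈ X, ∀ y ∈ X, x ≠ y → ⟪x, y⟫ ≤ c := by
    intro x hx y hy hxy
    rcases hc x hx y hy hxy with h | h
    · exact h.le
    · linarith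
  obtain ⟨U, hUc, hU⟩ := hm x hx
  have hUX : U ⊆ X := fun y hy => ((hU y).1 hy).1
  have hxU : x ∉ U := fun h => ((hU x).1 h).2.1 rfl
  set N : Finset V := (X.erase x) \ U with hN
  have hNmem : ∀ y, y ∈ N ↔ (y ∈ X ∧ y ≠ x ∧ ⟪x, y⟫ = c) := by
    intro y
    rw [hN, Finset.mem_sdiff, Finset.mem_erase, hU]
    constructor
    · rintro ⟨⟨h1, h2⟩, h3⟩
      refine ⟨h2, h1, ?_⟩
      by_contra h5
      exact h3 ⟨h2, h1, h5⟩
    · rintro ⟨h1, h2, h3⟩
      exact ⟨⟨h2, h1⟩, fun h => h.2.2 h3⟩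
  have hcard : X.card = 1 + m + N.card := by
    have h1 : U ⊆ X.erase x := fun y hy => Finset.mem_erase.2 ⟨((hU y).1 hy).2.1, hUX hy⟩
    have h2 := Finset.card_sdiff_add_card_eq_card h1
    rw [Finset.card_erase_of_mem hx, ← hN, hUc] at h2
    have h3 : 1 ≤ X.card := Finset.card_pos.2 ⟨x, hx⟩
    omega
  -- the two inequalities
  have xx : ⟪x, x⟫ = 1 := by rw [real_inner_self_eq_norm_sq, hu x hx]; norm_num
  have hsplit : ∑ y ∈ X, ⟪x, y⟫ = 1 + ∑ y ∈ U, ⟪x, y⟫ + N.card * c := by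
    have h1 : U ⊆ X.erase x := fun y hy => Finset.mem_erase.2 ⟨((hU y).1 hy).2.1, hUX hy⟩
    rw [← Finset.add_sum_erase X _ hx, xx, ← Finset.sum_sdiff h1, ← hN]
    have h2 : ∑ y ∈ N, ⟪x, y⟫ = ∑ _y ∈ N, c :=
      Finset.sum_congr rfl fun y hy => ((hNmem y).1 hy).2.2
    rw [h2, Finset.sum_const, nsmul_eq_mul]
    ring
  have hzero : ∑ y ∈ X, ⟪x, y⟫ = 0 := by rw [← inner_sum, hs, inner_zero_right]
  have hUle : ∑ y ∈ U, ⟪x, y⟫ ≤ (m : ℝ) * (2 * c - 1) := by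
    have : ∑ y ∈ U, ⟪x, y⟫ ≤ ∑ _y ∈ U, (2 * c - 1) := by
      refine Finset.sum_le_sum fun y hy => ?_
      obtain ⟨h1, h2, h3⟩ := (hU y).1 hy
      exact (hc x hx y h1 h2.symm).resolve_left h3
    rwa [Finset.sum_const, nsmul_eq_mul, hUc] at this
  have i1 : (m : ℝ) * (1 - 2 * c) ≤ 1 + N.card * c := by linarith
  have i2 : (1 + N.card * c) ^ 2 ≤ (m : ℝ) + m * ((m : ℝ) - 1) * c := by
    have h1 := real_inner_mul_inner_self_le x (∑ y ∈ U, y)
    have h2 := sum_sq_le U c (fun y hy => hu y (hUX hy))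
      (fun y hy z hz hyz => hle y (hUX hy) z (hUX hz) hyz)
    rw [xx, one_mul, inner_sum] at h1
    rw [hUc] at h2
    have h3 : ∑ y ∈ U, ⟪x, y⟫ = -(1 + N.card * c) := by linarith
    rw [h3] at h1
    nlinarith
  obtain ⟨-, j2⟩ := numb m N.card c (Nat.cast_nonneg _) (Nat.cast_nonneg _) h0 h4 i1 i2
  have hN2 : N.card ≤ 2 * m := by
    have : (N.card : ℝ) < ((2 * m + 1 : ℕ) : ℝ) := by push_cast; exact j2
    have := Nat.cast_lt.1 this
    omega
  rcases N.eq_empty_or_nonempty with hNe | ⟨z, hz⟩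
  · rw [hNe, Finset.card_empty] at i1
    have : (m : ℝ) < 2 := by
      push_cast at i1
      nlinarith [(Nat.cast_nonneg m : (0 : ℝ) ≤ m)]
    have : m < 2 := by exact_mod_cast this
    omega
  -- an adjacent pair
  obtain ⟨hzX, hzx, hxz⟩ := (hNmem z).1 hz
  obtain ⟨W, hWc, hW⟩ := hm z hzX
  have hWX : W ⊆ X := fun y hy => ((hW y).1 hy).1
  have zz : ⟪z, z⟫ = 1 := by rw [real_inner_self_eq_norm_sq, hu z hzX]; norm_num
  have hzU : z ∉ U := fun h => ((hU z).1 h).2.2 hxz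
  have hxW : x ∉ W := fun h => ((hW x).1 h).2.2 (by rw [real_inner_comm]; exact hxz)
  have hABc : (U \ W).card = (W \ U).card := by
    have h1 := Finset.card_sdiff_add_card_inter U W
    have h2 := Finset.card_sdiff_add_card_inter W U
    rw [Finset.inter_comm W U] at h2
    omega
  have hA1 : ∀ a ∈ U \ W, ⟪x, a⟫ ≤ 2 * c - 1 ∧ ⟪z, a⟫ = c := by
    intro a ha
    obtain ⟨h1, h2⟩ := Finset.mem_sdiff.1 ha
    obtain ⟨h3, h5, h6⟩ := (hU a).1 h1
    refine ⟨(hc x hx a h3 h5.symm).resolve_left h6, ?_⟩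
    by_contra h7
    exact h2 ((hW a).2 ⟨h3, fun h => hzU (h ▸ h1), h7⟩)
  have hB1 : ∀ a ∈ W \ U, ⟪z, a⟫ ≤ 2 * c - 1 ∧ ⟪x, a⟫ = c := by
    intro a ha
    obtain ⟨h1, h2⟩ := Finset.mem_sdiff.1 ha
    obtain ⟨h3, h5, h6⟩ := (hW a).1 h1
    refine ⟨(hc z hzX a h3 h5.symm).resolve_left h6, ?_⟩
    by_contra h7
    exact h2 ((hU a).2 ⟨h3, fun h => hxW (h ▸ h1), h7⟩)
  have hT1 : ∀ a ∈ U ∩ W, ⟪x, a⟫ ≤ 2 * c - 1 ∧ ⟪z, a⟫ ≤ 2 * c - 1 := by
    intro a ha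
    obtain ⟨h1, h2⟩ := Finset.mem_inter.1 ha
    obtain ⟨h3, h5, h6⟩ := (hU a).1 h1
    obtain ⟨h7, h8, h9⟩ := (hW a).1 h2
    exact ⟨(hc x hx a h3 h5.symm).resolve_left h6, (hc z hzX a h7 h8.symm).resolve_left h9⟩
  -- h ≤ 5
  have hh : (U \ W).card ≤ 5 := by
    obtain ⟨h, hh⟩ : ∃ h : ℝ, h = ((U \ W).card : ℝ) := ⟨_, rfl⟩
    have hh' : ((W \ U).card : ℝ) = h := by rw [hh, hABc]
    have hh0 : 0 ≤ h := by rw [hh]; positivity
    have pA := sum_sq_le (U \ W) c (fun y hy => hu y (hUX (Finset.sdiff_subset hy)))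
      (fun y hy z hz hyz => hle y (hUX (Finset.sdiff_subset hy)) z (hUX (Finset.sdiff_subset hz)) hyz)
    have pB := sum_sq_le (W \ U) c (fun y hy => hu y (hWX (Finset.sdiff_subset hy)))
      (fun y hy z hz hyz => hle y (hWX (Finset.sdiff_subset hy)) z (hWX (Finset.sdiff_subset hz)) hyz)
    rw [← hh] at pA
    rw [hh'] at pB
    have xA : ⟪x, ∑ a ∈ U \ W, a⟫ ≤ h * (2 * c - 1) := by
      rw [inner_sum, hh, ← nsmul_eq_mul, ← Finset.sum_const]
      exact Finset.sum_le_sum fun a ha => (hA1 a ha).1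
    have zA : ⟪z, ∑ a ∈ U \ W, a⟫ = h * c := by
      rw [inner_sum, hh, ← nsmul_eq_mul, ← Finset.sum_const]
      exact Finset.sum_congr rfl fun a ha => (hA1 a ha).2
    have zB : ⟪z, ∑ a ∈ W \ U, a⟫ ≤ h * (2 * c - 1) := by
      rw [inner_sum, ← hh', ← nsmul_eq_mul, ← Finset.sum_const]
      exact Finset.sum_le_sum fun a ha => (hB1 a ha).1
    have xB : ⟪x, ∑ a ∈ W \ U, a⟫ = h * c := by
      rw [inner_sum, ← hh', ← nsmul_eq_mul, ← Finset.sum_const]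
      exact Finset.sum_congr rfl fun a ha => (hB1 a ha).2
    set sA := ∑ a ∈ U \ W, a
    set sB := ∑ a ∈ W \ U, a
    have w1 : 0 ≤ ⟪h • (x - z) + (sA - sB), h • (x - z) + (sA - sB)⟫ := real_inner_self_nonneg
    have w2 : 0 ≤ ⟪sA + sB, sA + sB⟫ := real_inner_self_nonneg
    simp only [inner_add_left, inner_add_right, inner_sub_left, inner_sub_right,
      real_inner_smul_left, real_inner_smul_right] at w1 w2
    rw [real_inner_comm x z, real_inner_comm x sA, real_inner_comm x sB, real_inner_comm z sA,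
      real_inner_comm z sB, real_inner_comm sA sB, xx, zz, hxz, zA, xB] at w1
    rw [real_inner_comm sA sB] at w2
    have w3 : 0 ≤ h * (2 * (1 - c) - h * (1 - 3 * c)) := by
      nlinarith [mul_le_mul_of_nonneg_left xA hh0, mul_le_mul_of_nonneg_left zB hh0]
    by_contra hcon
    push Not at hcon
    have h6 : (6 : ℝ) ≤ h := by rw [hh]; exact_mod_cast hcon
    have w4 : 0 ≤ 2 * (1 - c) - h * (1 - 3 * c) := by
      by_contra h7
      push Not at h7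
      nlinarith
    nlinarith
  have ht : (U ∩ W).card ≤ 4 := by
    obtain ⟨t, htt⟩ : ∃ t : ℝ, t = ((U ∩ W).card : ℝ) := ⟨_, rfl⟩
    have ht0 : 0 ≤ t := by rw [htt]; positivity
    have pT := sum_sq_le (U ∩ W) c (fun y hy => hu y (hUX (Finset.inter_subset_left hy)))
      (fun y hy z hz hyz => hle y (hUX (Finset.inter_subset_left hy)) z
        (hUX (Finset.inter_subset_left hz)) hyz)
    rw [← htt] at pT
    have xT : ⟪x, ∑ a ∈ U ∩ W, a⟫ ≤ t * (2 * c - 1) := by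
      rw [inner_sum, htt, ← nsmul_eq_mul, ← Finset.sum_const]
      exact Finset.sum_le_sum fun a ha => (hT1 a ha).1
    have zT : ⟪z, ∑ a ∈ U ∩ W, a⟫ ≤ t * (2 * c - 1) := by
      rw [inner_sum, htt, ← nsmul_eq_mul, ← Finset.sum_const]
      exact Finset.sum_le_sum fun a ha => (hT1 a ha).2
    set sT := ∑ a ∈ U ∩ W, a
    have w1 : 0 ≤ ⟪(2 / 5 * t) • (x + z) + sT, (2 / 5 * t) • (x + z) + sT⟫ := real_inner_self_nonneg
    simp only [inner_add_left, inner_add_right, real_inner_smul_left, real_inner_smul_right] at w1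
    rw [real_inner_comm x z, real_inner_comm x sT, real_inner_comm z sT, xx, zz, hxz] at w1
    have w3 : 0 ≤ t * ((1 - c) - t * (32 / 25 - 113 / 25 * c)) := by
      nlinarith [mul_le_mul_of_nonneg_left xT ht0, mul_le_mul_of_nonneg_left zT ht0]
    by_contra hcon
    push Not at hcon
    have h6 : (5 : ℝ) ≤ t := by rw [htt]; exact_mod_cast hcon
    have w4 : 0 ≤ (1 - c) - t * (32 / 25 - 113 / 25 * c) := by
      by_contra h7
      push Not at h7
      nlinarith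
    nlinarith
  have hm9 : m ≤ 9 := by
    have h1 := Finset.card_sdiff_add_card_inter U W
    omega
  omega

end Pool.Agent.T9h47.NK
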